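import Pool.Agent.T9h94.CZ.Spec2

/-!
# CZ, piece (L): finitely generated equationally Noetherian groups are Hopfian
-/

set_option autoImplicit false

namespace Pool.Agent.T9h46.CZ

open Pool.Agent.T9h94.CZ

/-- the iterates of an endomorphism -/
def it {P : Type} [Group P] (η : P →* P) : ℕ → (P →* P)
  | 0 => MonoidHom.id P
  | k + 1 => η.comp (it η k)

theorem it_surj {P : Type} [Group P] (η : P →* P) (h : Function.Surjective η) (k : ℕ) :
    Function.Surjective (it η k) := by
  induction k with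
  | zero => exact Function.surjective_id
  | succ k ih => exact h.comp ih

theorem it_one {P : Type} [Group P] (η : P →* P) {p : P} {k l : ℕ} (hkl : k ≤ l)
    (h : it η k p = 1) : it η l p = 1 := by
  induction l, hkl using Nat.le_induction with
  | base => exact h
  | succ l _ ih =>
    show η (it η l p) = 1
    rw [ih, map_one]

theorem lift_comp' {α P Q : Type} [Group P] [Group Q] (f : P →* Q) (Y : α → P) (w : FreeGroup α) :
    FreeGroup.lift (fun a => f (Y a)) w = f (FreeGroup.lift Y w) := by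
  have h : FreeGroup.lift (fun a => f (Y a)) = f.comp (FreeGroup.lift Y) := by
    ext a
    simp
  rw [h]
  rfl

theorem fin_mono {X : Type} {R : ℕ → Set X} (hR : Monotone R) {T : Set X} (hT : T.Finite)
    (h : T ⊆ ⋃ k, R k) : ∃ k, T ⊆ R k := by
  have h' : ∀ w ∈ T, ∃ k, w ∈ R k := fun w hw => Set.mem_iUnion.1 (h hw)
  choose! f hf using h'
  exact ⟨hT.toFinset.sup f, fun w hw => hR (Finset.le_sup (hT.mem_toFinset.2 hw)) (hf w hw)⟩

/-- Piece (L). -/
theorem sHopf : SHopf := by
  intro P _ hfg hE η hη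
  obtain ⟨S, _, φ, hφ⟩ := Group.fg_iff_exists_freeGroup_hom_surjective_finite.1 hfg
  set Y : S → P := fun a => φ (FreeGroup.of a) with hY
  have hYl : ∀ w, FreeGroup.lift Y w = φ w := by
    intro w
    have h : FreeGroup.lift Y = φ := by
      ext a
      simp [hY]
    rw [h]
  set R : ℕ → Set (FreeGroup S) := fun k => {w | it η k (FreeGroup.lift Y w) = 1} with hR
  obtain ⟨T, hTf, hTR, hT⟩ := hE S (⋃ k, R k)
  have hmono : Monotone R := fun k l hkl w hw => it_one η hkl hw
  have hk : ∃ k, T ⊆ R k := fin_mono hmono hTf hTR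
  obtain ⟨k, hk⟩ := hk
  have h1 : ∀ w ∈ ⋃ k, R k, w ∈ R k := by
    intro w hw
    have := hT (fun a => it η k (Y a)) (fun w hw => by
      rw [lift_comp']
      exact hk hw) w hw
    rw [lift_comp'] at this
    exact this
  rw [injective_iff_map_eq_one]
  intro p hp
  obtain ⟨q, rfl⟩ := it_surj η hη k p
  obtain ⟨w, rfl⟩ := hφ q
  rw [← hYl] at hp ⊢
  exact h1 w (Set.mem_iUnion.2 ⟨k + 1, hp⟩)

end Pool.Agent.T9h46.CZ
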